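import Mathlib
import Pool.Agent.H16.QD4
import Pool.Agent.H16.QD4b
import Pool.Agent.H16.QD4c

/-!
MP_122cec_nt, Q1: every `Q₈`-extension of `ℚ` is contained in the compositum `ℚ_{D₄}` of all
`D₄`-extensions of `ℚ`.

Idea: if `Gal(K/ℚ) = Q₈ = ⟨σ, τ⟩` with central involution `z`, take `θ ∈ K` with `zθ = -θ`.
For `g = σ, τ, στ` the product `θ · gθ` is fixed by `z` and negated by `g`, so up to a square root
of a rational number it lies in the quadratic field fixed by `g`.  The product
`P = θ · σθ · τθ · στθ` is rational and `θ² P = (θ σθ)(θ τθ)(θ στθ)`, so `θ²` is a product of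
elements of quadratic fields.  Square roots of elements of quadratic fields lie in `ℚ_{D₄}`.
-/

namespace Pool.Agent.Results.MP_122cec_nt.Q8InD4

open Pool.Agent.H16.QD4

/-- Every `Q₈`-extension `K` of `ℚ` (inside an algebraic closure `Ω`) is contained in the
compositum of all `D₄`-extensions of `ℚ`. -/
theorem result (Ω : Type*) [Field Ω] [Algebra ℚ Ω] [IsAlgClosure ℚ Ω]
    (K : IntermediateField ℚ Ω) (hK : IsGExt (QuaternionGroup 2) K) : K ≤ compD4 ℚ Ω :=
  q8_le (compD4 ℚ Ω) (fun x p q X D hX hD => sqrt_mem x p q X D hX hD) K hK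

end Pool.Agent.Results.MP_122cec_nt.Q8InD4
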